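import Pool.Agent.H59.LIN.Targets

/-!
# MP_559314_gt, row FNI: finiteness of the set of multisets of a given weight
-/

set_option autoImplicit false

open Finset Polynomial

namespace Pool.Agent.H42.LIN

open Pool.Agent.H59.LIN

theorem pf_FNI : T_FNI := by
  intro d
  classical
  have hcard : ∀ ν : Multiset (ℕ × ℕ), Multiset.card ν ≤ wt ν := by
    intro ν
    induction ν using Multiset.induction_on with
    | empty => simp
    | cons b ν ih =>
      have h1 : wt (b ::ₘ ν) = mb b + wt ν := by simp [wt]
      have h2 : 1 ≤ mb b := by unfold mb; omega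
      rw [h1, Multiset.card_cons]
      omega
  have hmem : ∀ (ν : Multiset (ℕ × ℕ)) (b : ℕ × ℕ), b ∈ ν → mb b ≤ wt ν := by
    intro ν b hb
    exact Multiset.single_le_sum (fun x _ => Nat.zero_le x) _ (Multiset.mem_map_of_mem mb hb)
  let box : Finset (ℕ × ℕ) := range (d + 1) ×ˢ range (d + 1)
  refine Set.Finite.subset (Finset.finite_toSet (Multiset.powerset (d • box.val)).toFinset) ?_
  intro ν hν
  have hν' : wt ν = d := hν
  rw [Finset.mem_coe, Multiset.mem_toFinset, Multiset.mem_powerset, Multiset.le_iff_count]
  intro b
  by_cases hb : b ∈ ν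
  · have h1 := hmem ν b hb
    have h2 : b ∈ box := by
      rw [Finset.mem_product, Finset.mem_range, Finset.mem_range]
      unfold mb at h1
      omega
    have h3 : Multiset.count b box.val = 1 :=
      Multiset.count_eq_one_of_mem box.nodup h2
    rw [Multiset.count_nsmul, h3, mul_one]
    calc Multiset.count b ν ≤ Multiset.card ν := Multiset.count_le_card _ _
      _ ≤ wt ν := hcard ν
      _ = d := hν'
  · rw [Multiset.count_eq_zero_of_notMem hb]
    exact Nat.zero_le _

end Pool.Agent.H42.LIN
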