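import Pool.Agent.H59.LIN.Targets

/-!
# MP_559314_gt, row TRF: the trace formula
-/

set_option autoImplicit false

open Finset Polynomial

namespace Pool.Agent.H42.LIN

open Pool.Agent.H59.LIN

/-- the entries of the product of a list of matrices -/
theorem prod_ofFn_apply (N m : ℕ) : ∀ (M : Fin (m + 1) → Matrix (Fin N) (Fin N) ℤ) (a b : Fin N),
    (List.ofFn M).prod a b = ∑ l : Fin m → Fin N, ∏ p : Fin (m + 1),
      M p (Fin.cons (α := fun _ => Fin N) a l p) (Fin.snoc (α := fun _ => Fin N) l b p) := by
  induction m with
  | zero =>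
    intro M a b
    rw [List.ofFn_succ, List.ofFn_zero, List.prod_cons, List.prod_nil, mul_one]
    rw [Fintype.sum_unique]
    rw [Fin.prod_univ_succ, Fin.prod_univ_zero, mul_one]
    rfl
  | succ m ih =>
    intro M a b
    rw [List.ofFn_succ, List.prod_cons, Matrix.mul_apply]
    have h1 : ∀ c : Fin N, M 0 a c * (List.ofFn fun i => M (Fin.succ i)).prod c b =
        ∑ l : Fin m → Fin N, M 0 a c * ∏ p : Fin (m + 1),
          M p.succ (Fin.cons (α := fun _ => Fin N) c l p)
            (Fin.snoc (α := fun _ => Fin N) l b p) := by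
      intro c
      rw [ih, Finset.mul_sum]
    rw [Finset.sum_congr rfl fun c _ => h1 c]
    rw [← Fintype.sum_prod_type']
    refine Fintype.sum_equiv (Fin.consEquiv (fun _ : Fin (m + 1) => Fin N)) _ _ ?_
    rintro ⟨c, l⟩
    change _ = ∏ p : Fin (m + 2),
      M p (Fin.cons (α := fun _ => Fin N) a (Fin.cons (α := fun _ => Fin N) c l) p)
        (Fin.snoc (α := fun _ => Fin N) (Fin.cons (α := fun _ => Fin N) c l) b p)
    have e1 : (Fin.snoc (α := fun _ => Fin N) (Fin.cons (α := fun _ => Fin N) c l) b :
        Fin (m + 2) → Fin N) = Fin.cons (α := fun _ => Fin N) c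
          (Fin.snoc (α := fun _ => Fin N) l b) :=
      (Fin.cons_snoc_eq_snoc_cons c l b).symm
    rw [e1]
    refine Eq.trans ?_ (Fin.prod_univ_succ _).symm
    simp only [Fin.cons_zero, Fin.cons_succ]

/-- the trace of the product of a list of matrices -/
theorem trace_prod (N n : ℕ) (hn : 0 < n) (M : Fin n → Matrix (Fin N) (Fin N) ℤ) :
    (List.ofFn M).prod.trace = ∑ l : Fin n → Fin N, ∏ p : Fin n, M p (l p) (l (finRotate n p)) := by
  obtain ⟨m, rfl⟩ : ∃ m, n = m + 1 := ⟨n - 1, by omega⟩
  unfold Matrix.trace
  have h1 : ∀ a : Fin N, Matrix.diag (List.ofFn M).prod a = ∑ l : Fin m → Fin N,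
      ∏ p : Fin (m + 1), M p (Fin.cons (α := fun _ => Fin N) a l p)
        (Fin.snoc (α := fun _ => Fin N) l a p) := by
    intro a
    rw [Matrix.diag_apply, prod_ofFn_apply]
  rw [Finset.sum_congr rfl fun a _ => h1 a]
  rw [← Fintype.sum_prod_type']
  refine Fintype.sum_equiv (Fin.consEquiv (fun _ : Fin (m + 1) => Fin N)) _ _ ?_
  rintro ⟨a, l⟩
  change _ = ∏ p : Fin (m + 1), M p (Fin.cons (α := fun _ => Fin N) a l p)
    (Fin.cons (α := fun _ => Fin N) a l (finRotate (m + 1) p))
  refine Finset.prod_congr rfl fun p _ => ?_
  congr 1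
  refine Fin.lastCases ?_ (fun q => ?_) p
  · rw [finRotate_last, Fin.cons_zero, Fin.snoc_last]
  · rw [Fin.snoc_castSucc]
    have e : finRotate (m + 1) q.castSucc = q.succ := by
      ext
      rw [finRotate_apply, Fin.coeSucc_eq_succ]
    rw [e, Fin.cons_succ]

/-- the number of functions which are constant on the classes -/
theorem card_const {X : Type} [Fintype X] [DecidableEq X] (N : ℕ) (f : X → X) :
    Fintype.card {l : X → Fin N // ∀ x, l (f x) = l x} = N ^ ncl f := by
  classical
  have e : {l : X → Fin N // ∀ x, l (f x) = l x} ≃ ((Quot fun x y => y = f x) → Fin N) :=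
    { toFun := fun l => Quot.lift l.1 fun x y h => by rw [h, l.2]
      invFun := fun g => ⟨fun x => g (Quot.mk _ x), fun x => by
        have h : Quot.mk (fun x y => y = f x) x = Quot.mk _ (f x) := Quot.sound rfl
        change g (Quot.mk _ (f x)) = g (Quot.mk _ x)
        rw [h]⟩
      left_inv := fun l => rfl
      right_inv := fun g => by
        funext q
        induction q using Quot.inductionOn with
        | h x => rfl }
  have : Fintype (Quot fun x y => y = f x) := Fintype.ofFinite _
  rw [Fintype.card_congr e, Fintype.card_fun, Fintype.card_fin, ncl, Nat.card_eq_fintype_card]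

theorem prod_filter_map {α : Type} (N : ℕ) (P : α → Prop) [DecidablePred P]
    (f : α → Matrix (Fin N) (Fin N) ℤ) (L : List α) :
    ((L.filter fun x => decide (P x)).map f).prod =
      (L.map fun x => if P x then f x else 1).prod := by
  induction L with
  | nil => rfl
  | cons x L ih =>
    rw [List.map_cons, List.prod_cons, ← ih]
    by_cases h : P x
    · rw [List.filter_cons_of_pos (by simpa using h), List.map_cons, List.prod_cons, if_pos h]
    · rw [List.filter_cons_of_neg (by simpa using h), if_neg h, one_mul]

theorem pf_TRF : T_TRF := by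
  intro d D B N hd
  classical
  set f : Fin (2 * d) → Fin (2 * d) := fun x => finRotate (2 * d) (jmp D B x) with hf
  -- the trace as a sum
  have h1 : ∀ I : Fin d → Fin N × Fin N, (((sub D B).map (EE I)).prod).trace =
      ∑ l : Fin (2 * d) → Fin N, ∏ p : Fin (2 * d),
        (if (D p).1 ∈ B then EE I (D p) else 1) (l p) (l (finRotate (2 * d) p)) := by
    intro I
    have e1 : ((sub D B).map (EE I)).prod =
        (List.ofFn fun p => if (D p).1 ∈ B then EE I (D p) else 1).prod := by
      unfold sub
      rw [prod_filter_map N (fun x : Fin d × Bool => x.1 ∈ B) (EE I) (List.ofFn D), List.map_ofFn]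
      rfl
    rw [e1, trace_prod N (2 * d) (by omega)]
  rw [Finset.sum_congr rfl fun I _ => h1 I, Finset.sum_comm]
  -- the sum over the colourings
  have h2 : ∀ l : Fin (2 * d) → Fin N, ∑ I : Fin d → Fin N × Fin N, ∏ p : Fin (2 * d),
        (if (D p).1 ∈ B then EE I (D p) else 1) (l p) (l (finRotate (2 * d) p)) =
      (N : ℤ) ^ (2 * (d - B.card)) * if (∀ x, l (f x) = l x) then 1 else 0 := by
    intro l
    have e1 : ∀ I : Fin d → Fin N × Fin N, ∏ p : Fin (2 * d),
        (if (D p).1 ∈ B then EE I (D p) else 1) (l p) (l (finRotate (2 * d) p)) =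
        ∏ c : Fin d, ((if c ∈ B then (Matrix.single (I c).2 (I c).1 1) else 1 :
            Matrix (Fin N) (Fin N) ℤ) (l (D.symm (c, true)))
            (l (finRotate (2 * d) (D.symm (c, true)))) *
          (if c ∈ B then (Matrix.single (I c).1 (I c).2 1) else 1 :
            Matrix (Fin N) (Fin N) ℤ) (l (D.symm (c, false)))
            (l (finRotate (2 * d) (D.symm (c, false))))) := by
      intro I
      rw [← Equiv.prod_comp D.symm, Fintype.prod_prod_type]
      refine Finset.prod_congr rfl fun c _ => ?_
      rw [Fintype.prod_bool]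
      simp only [Equiv.apply_symm_apply, EE, if_true, Bool.false_eq_true, if_false]
    rw [Finset.sum_congr rfl fun I _ => e1 I]
    have e2 := (Finset.prod_univ_sum (fun _ : Fin d => (univ : Finset (Fin N × Fin N)))
      (fun c i => (if c ∈ B then (Matrix.single i.2 i.1 1) else 1 :
            Matrix (Fin N) (Fin N) ℤ) (l (D.symm (c, true)))
            (l (finRotate (2 * d) (D.symm (c, true)))) *
          (if c ∈ B then (Matrix.single i.1 i.2 1) else 1 :
            Matrix (Fin N) (Fin N) ℤ) (l (D.symm (c, false)))
            (l (finRotate (2 * d) (D.symm (c, false)))))).symm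
    rw [Fintype.piFinset_univ] at e2
    refine e2.trans ?_
    have e3 : ∀ c : Fin d, (∑ i : Fin N × Fin N,
          (if c ∈ B then (Matrix.single i.2 i.1 1) else 1 :
            Matrix (Fin N) (Fin N) ℤ) (l (D.symm (c, true)))
            (l (finRotate (2 * d) (D.symm (c, true)))) *
          (if c ∈ B then (Matrix.single i.1 i.2 1) else 1 :
            Matrix (Fin N) (Fin N) ℤ) (l (D.symm (c, false)))
            (l (finRotate (2 * d) (D.symm (c, false))))) =
        (if c ∈ B then 1 else (N : ℤ) ^ 2) *
          if (l (f (D.symm (c, true))) = l (D.symm (c, true)) ∧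
            l (f (D.symm (c, false))) = l (D.symm (c, false))) then 1 else 0 := by
      intro c
      by_cases hc : c ∈ B
      · have j1 : f (D.symm (c, true)) = finRotate (2 * d) (D.symm (c, false)) := by
          rw [hf]
          simp only [jmp, Equiv.apply_symm_apply, if_pos hc, Bool.not_true]
        have j2 : f (D.symm (c, false)) = finRotate (2 * d) (D.symm (c, true)) := by
          rw [hf]
          simp only [jmp, Equiv.apply_symm_apply, if_pos hc, Bool.not_false]
        simp only [if_pos hc, one_mul]
        rw [j1, j2]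
        generalize l (finRotate (2 * d) (D.symm (c, false))) = y
        generalize l (finRotate (2 * d) (D.symm (c, true))) = x
        generalize l (D.symm (c, true)) = z
        generalize l (D.symm (c, false)) = w
        rw [Finset.sum_eq_single (x, z)]
        · rw [Matrix.single_apply, Matrix.single_apply, if_pos ⟨rfl, rfl⟩, one_mul]
          by_cases h : y = z ∧ x = w
          · rw [if_pos h, if_pos ⟨h.2, h.1.symm⟩]
          · rw [if_neg h, if_neg fun h' => h ⟨h'.2.symm, h'.1⟩]
        · rintro ⟨i, j⟩ _ hij
          rw [Matrix.single_apply, if_neg, zero_mul]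
          rintro ⟨h, h'⟩
          exact hij (by rw [← h, ← h'])
        · intro h
          exact absurd (Finset.mem_univ _) h
      · have j1 : f (D.symm (c, true)) = finRotate (2 * d) (D.symm (c, true)) := by
          rw [hf]
          simp only [jmp, Equiv.apply_symm_apply, if_neg hc]
        have j2 : f (D.symm (c, false)) = finRotate (2 * d) (D.symm (c, false)) := by
          rw [hf]
          simp only [jmp, Equiv.apply_symm_apply, if_neg hc]
        simp only [if_neg hc]
        rw [j1, j2]
        rw [Finset.sum_const, Finset.card_univ, Fintype.card_prod, Fintype.card_fin,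
          Matrix.one_apply, Matrix.one_apply, nsmul_eq_mul]
        push_cast
        have k1 : (l (finRotate (2 * d) (D.symm (c, true))) = l (D.symm (c, true)) ∧
            l (finRotate (2 * d) (D.symm (c, false))) = l (D.symm (c, false))) ↔
            (l (D.symm (c, true)) = l (finRotate (2 * d) (D.symm (c, true))) ∧
            l (D.symm (c, false)) = l (finRotate (2 * d) (D.symm (c, false)))) :=
          ⟨fun h => ⟨h.1.symm, h.2.symm⟩, fun h => ⟨h.1.symm, h.2.symm⟩⟩
        rw [if_congr k1 rfl rfl, ite_and]
        split_ifs <;> ring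
    rw [Finset.prod_congr rfl fun c _ => e3 c, Finset.prod_mul_distrib]
    congr 1
    · rw [Finset.prod_ite, Finset.prod_const_one, one_mul, Finset.prod_const, ← pow_mul]
      congr 2
      have : (univ.filter fun x => x ∉ B) = Bᶜ := by
        ext x
        simp
      rw [this, Finset.card_compl, Fintype.card_fin]
    · by_cases hall : ∀ x, l (f x) = l x
      · rw [if_pos hall]
        exact Finset.prod_eq_one fun c _ => if_pos ⟨hall _, hall _⟩
      · rw [if_neg hall]
        rw [not_forall] at hall
        obtain ⟨x, hx⟩ := hall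
        obtain ⟨⟨c, β⟩, rfl⟩ := D.symm.surjective x
        refine Finset.prod_eq_zero (Finset.mem_univ c) (if_neg fun h => hx ?_)
        cases β
        · exact h.2
        · exact h.1
  rw [Finset.sum_congr rfl fun l _ => h2 l, ← Finset.mul_sum]
  have h3 : (∑ l : Fin (2 * d) → Fin N, if (∀ x, l (f x) = l x) then (1 : ℤ) else 0) =
      (N : ℤ) ^ circ D B := by
    rw [Finset.sum_boole]
    have := card_const N f
    rw [Fintype.card_subtype] at this
    rw [this]
    push_cast
    rfl
  rw [h3, ← pow_add]

end Pool.Agent.H42.LIN
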